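import Pool.Agent.Q20.DegPat.Proof

/-!
Two finite groups of the same order and with the same degree pattern whose
prime graphs differ.  Moreover every finite group `K` occurs as a direct factor of both.
-/

namespace Pool.Agent.Results.MP_21cc58_al.DegreePatternNotEnough

open Q20.DegPat

/-- **Disproof of Q1, with an arbitrary direct factor.**  For every finite group `K` there are
finite groups `A`, `B` such that `K × A` and `K × B` have the same order and the same
degree pattern but different prime graphs. -/
theorem result (K : Type) [Group K] [Finite K] :
    ∃ (A B : Type) (_ : Group A) (_ : Group B) (_ : Finite A) (_ : Finite B),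
      Nat.card (K × A) = Nat.card (K × B) ∧
      degreePattern (K × A) = degreePattern (K × B) ∧
      primeGraph (K × A) ≠ primeGraph (K × B) :=
  main K

end Pool.Agent.Results.MP_21cc58_al.DegreePatternNotEnough
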